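import Mathlib
import Pool.Agent.H220.K.Stm

/-!
# S_bar : barrier argument near the totally real piece `{q = conj p}`
-/

set_option autoImplicit false

open Set Filter Topology Metric
open scoped ContDiff ComplexConjugate

namespace Pool.Agent.H670.K

open Pool.Agent.H220.K

/-- the test function -/
noncomputable def tst (C κ a L D : ℝ) (c w₀ : ℂ) (x : E3) : ℝ :=
  (C + κ * Real.log ‖x.1 - c‖) + (a * ‖x.1 - c‖ ^ 2 +
    L * (‖(x.1 - c) * (x.2.1 - conj c) - (D : ℂ)‖ ^ 2 + ‖x.2.2 - w₀‖ ^ 2))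

theorem tst_cd {C κ a L D : ℝ} {c w₀ : ℂ} {x : E3} (hx : x.1 ≠ c) :
    ContDiffAt ℝ 2 (tst C κ a L D c w₀) x := by
  have h1 : ContDiffAt ℝ 2 (fun x : E3 => x.1 - c) x := by fun_prop
  have h2 : ContDiffAt ℝ 2 (fun x : E3 => (x.1 - c) * (x.2.1 - conj c) - (D : ℂ)) x := by fun_prop
  have h3 : ContDiffAt ℝ 2 (fun x : E3 => x.2.2 - w₀) x := by fun_prop
  have h4 : ContDiffAt ℝ 2 (fun x : E3 => Real.log ‖x.1 - c‖) x :=
    ContDiffAt.comp (g := fun z : ℂ => Real.log ‖z‖) x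
      (contDiffAt_log_norm (sub_ne_zero.2 hx)) h1
  have h5 := h1.norm_sq ℝ
  have h6 := h2.norm_sq ℝ
  have h7 := h3.norm_sq ℝ
  exact (contDiffAt_const.add (contDiffAt_const.mul h4)).add
    ((contDiffAt_const.mul h5).add (contDiffAt_const.mul (h6.add h7)))

theorem levi_shift (u : ℂ → ℝ) (a : ℂ) : levi (fun t : ℂ => u (a + t)) 0 1 = levi u a 1 := by
  unfold levi
  simp only [zero_add]

/-- there is a direction in which the Levi form of the test function is `a` -/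
theorem tst_levi {C κ a L D : ℝ} {c w₀ : ℂ} {x : E3} (hx : x.1 ≠ c) :
    ∃ ξ : E3, levi (tst C κ a L D c w₀) x ξ = a := by
  obtain ⟨Z, hZ⟩ : ∃ Z, Z = x.1 - c := ⟨_, rfl⟩
  have hZ0 : Z ≠ 0 := by
    rw [hZ]
    exact sub_ne_zero.2 hx
  obtain ⟨β, hβ⟩ : ∃ β, x.2.1 - conj c = β * Z := ⟨(x.2.1 - conj c) / Z, by field_simp⟩
  refine ⟨(1, -β, 0), ?_⟩
  rw [levi_line]
  have e : (fun t : ℂ => tst C κ a L D c w₀ (x + t • ((1, -β, 0) : E3))) = fun t : ℂ =>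
      ((C + L * ‖x.2.2 - w₀‖ ^ 2) + κ * Real.log ‖Z + t‖) +
        (a * ‖Z + t‖ ^ 2 + L * ‖(Z * (β * Z) - (D : ℂ)) - β * t ^ 2‖ ^ 2) := by
    funext t
    unfold tst
    have e1 : (x + t • ((1, -β, 0) : E3)).1 - c = Z + t := by
      rw [hZ]
      show (x.1 + t * 1) - c = _
      ring
    have e2 : (x + t • ((1, -β, 0) : E3)).2.1 - conj c = β * (Z - t) := by
      show (x.2.1 + t * (-β)) - conj c = _
      linear_combination hβ
    have e3 : (x + t • ((1, -β, 0) : E3)).2.2 - w₀ = x.2.2 - w₀ := by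
      show (x.2.2 + t * 0) - w₀ = _
      ring
    rw [e1, e2, e3]
    have e4 : (Z + t) * (β * (Z - t)) - (D : ℂ) = (Z * (β * Z) - (D : ℂ)) - β * t ^ 2 := by ring
    rw [e4]
    ring
  rw [e]
  have c0 : ContDiffAt ℝ 2 (fun t : ℂ => Z + t) 0 := by fun_prop
  have c1 : ContDiffAt ℝ 2 (fun t : ℂ => Real.log ‖Z + t‖) 0 :=
    ContDiffAt.comp (g := fun z : ℂ => Real.log ‖z‖) 0
      (contDiffAt_log_norm (by rw [add_zero]; exact hZ0)) c0
  have c2 : ContDiffAt ℝ 2 (fun t : ℂ => ‖Z + t‖ ^ 2) 0 := c0.norm_sq ℝ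
  have c3' : ContDiffAt ℝ 2 (fun t : ℂ => (Z * (β * Z) - (D : ℂ)) - β * t ^ 2) 0 := by fun_prop
  have c3 : ContDiffAt ℝ 2 (fun t : ℂ => ‖(Z * (β * Z) - (D : ℂ)) - β * t ^ 2‖ ^ 2) 0 :=
    c3'.norm_sq ℝ
  have l1 : levi (fun t : ℂ => Real.log ‖Z + t‖) 0 1 = 0 := by
    rw [levi_shift (fun z : ℂ => Real.log ‖z‖) Z, levi_log_norm hZ0]
  have l2 : levi (fun t : ℂ => ‖Z + t‖ ^ 2) 0 1 = 1 := by
    have h := levi_norm_sq (f := fun t : ℂ => Z + t) (p := 0) (ξ := 1) (h' := fun _ => 1) (h2 := 0)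
      (Eventually.of_forall fun ζ => by
        have h1 : HasDerivAt (fun ζ : ℂ => Z + ζ) 1 ζ := (hasDerivAt_id ζ).const_add Z
        have h2 : (fun ζ : ℂ => Z + (0 + ζ • (1 : ℂ))) = fun ζ => Z + ζ := by
          funext ζ
          simp
        rw [h2]
        exact h1) (hasDerivAt_const 0 1)
    rw [h]
    simp
  have l3 : levi (fun t : ℂ => ‖(Z * (β * Z) - (D : ℂ)) - β * t ^ 2‖ ^ 2) 0 1 = 0 := by
    have h := levi_norm_sq (f := fun t : ℂ => (Z * (β * Z) - (D : ℂ)) - β * t ^ 2) (p := 0) (ξ := 1)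
      (h' := fun t => -(β * (2 * t))) (h2 := -(β * 2))
      (Eventually.of_forall fun ζ => by
        have h2 : (fun ζ : ℂ => (Z * (β * Z) - (D : ℂ)) - β * (0 + ζ • (1 : ℂ)) ^ 2) =
            fun ζ => (Z * (β * Z) - (D : ℂ)) - β * ζ ^ 2 := by
          funext ζ
          simp
        rw [h2]
        have h1 := ((hasDerivAt_pow 2 ζ).const_mul β).const_sub (Z * (β * Z) - (D : ℂ))
        refine h1.congr_deriv ?_
        simp) (by
        have h1 := (((hasDerivAt_id (0 : ℂ)).const_mul 2).const_mul β).neg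
        refine h1.congr_deriv ?_
        simp)
    rw [h]
    simp
  have a1 := levi_add (ξ := 1) (contDiffAt_const (c := C + L * ‖x.2.2 - w₀‖ ^ 2) (n := 2) (x := (0 : ℂ)))
    (contDiffAt_const.mul c1 : ContDiffAt ℝ 2 (fun t : ℂ => κ * Real.log ‖Z + t‖) 0)
  have a2 := levi_add (ξ := 1) (contDiffAt_const.mul c2 : ContDiffAt ℝ 2 (fun t : ℂ => a * ‖Z + t‖ ^ 2) 0)
    (contDiffAt_const.mul c3 : ContDiffAt ℝ 2
      (fun t : ℂ => L * ‖(Z * (β * Z) - (D : ℂ)) - β * t ^ 2‖ ^ 2) 0)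
  rw [levi_add (contDiffAt_const.add (contDiffAt_const.mul c1))
    ((contDiffAt_const.mul c2).add (contDiffAt_const.mul c3)), a1, a2, levi_const,
    levi_const_mul c1, levi_const_mul c2, levi_const_mul c3, l1, l2, l3]
  ring

/-- the main step -/
theorem bar_core {W : Set E3} {v : E3 → EReal} {x₁ x₀ : E3} {τ M : ℝ} (hτ : 0 < τ)
    (hτW : closedBall x₁ τ ⊆ W) (hpl : x₁.2.1 = conj x₁.1) (husc : UpperSemicontinuousOn v W)
    (htop : ∀ x ∈ W, v x ≠ ⊤) (hbot : ∀ x ∈ W ∩ Plane, v x = ⊥) (hvisc : Visc W v)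
    (hM : ∀ x ∈ closedBall x₁ τ, v x ≤ M) (hx₀ : ‖x₀ - x₁‖ < τ / 50) (hne : v x₀ ≠ ⊥) : False := by
  have hx₀W : x₀ ∈ W := hτW (by rw [mem_closedBall, dist_eq_norm]; linarith)
  obtain ⟨p₀, hp₀⟩ : ∃ p₀, p₀ = x₀.1 := ⟨_, rfl⟩
  obtain ⟨q₀, hq₀⟩ : ∃ q₀, q₀ = x₀.2.1 := ⟨_, rfl⟩
  obtain ⟨w₀, hw₀⟩ : ∃ w₀, w₀ = x₀.2.2 := ⟨_, rfl⟩
  have n1 : ‖p₀ - x₁.1‖ < τ / 50 := by
    rw [hp₀]
    exact (norm_fst_le (x₀ - x₁)).trans_lt hx₀
  have n23 : ‖(x₀ - x₁).2‖ < τ / 50 := (norm_snd_le (x₀ - x₁)).trans_lt hx₀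
  have n2 : ‖q₀ - x₁.2.1‖ < τ / 50 := by
    rw [hq₀]
    exact (norm_fst_le (x₀ - x₁).2).trans_lt n23
  have n3 : ‖w₀ - x₁.2.2‖ < τ / 50 := by
    rw [hw₀]
    exact (norm_snd_le (x₀ - x₁).2).trans_lt n23
  have n2' : ‖conj q₀ - x₁.1‖ < τ / 50 := by
    have h1 : conj q₀ - x₁.1 = conj (q₀ - x₁.2.1) := by
      rw [map_sub, hpl, Complex.conj_conj]
    rw [h1, Complex.norm_conj]
    exact n2
  -- the number `d`
  obtain ⟨e, he⟩ : ∃ e, e = p₀ - conj q₀ := ⟨_, rfl⟩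
  have he0 : e ≠ 0 := by
    intro h
    apply hne
    refine hbot x₀ ⟨hx₀W, ?_⟩
    show x₀.2.1 = conj x₀.1
    rw [← hp₀, ← hq₀]
    have h1 : p₀ = conj q₀ := by
      rw [h] at he
      exact (sub_eq_zero.1 he.symm)
    rw [h1, Complex.conj_conj]
  obtain ⟨d, hd⟩ : ∃ d, d = ‖e‖ := ⟨_, rfl⟩
  have hd0 : 0 < d := by rw [hd]; exact norm_pos_iff.2 he0
  have hdτ : d ≤ τ / 25 := by
    have h1 : e = (p₀ - x₁.1) - (conj q₀ - x₁.1) := by rw [he]; ring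
    rw [hd, h1]
    have := norm_sub_le (p₀ - x₁.1) (conj q₀ - x₁.1)
    linarith
  obtain ⟨c, hc⟩ : ∃ c, c = 2 * conj q₀ - p₀ := ⟨_, rfl⟩
  have hcx : ‖c - x₁.1‖ ≤ 3 * τ / 50 := by
    have h1 : c - x₁.1 = 2 * (conj q₀ - x₁.1) - (p₀ - x₁.1) := by rw [hc]; ring
    have h2 := norm_sub_le (2 * (conj q₀ - x₁.1)) (p₀ - x₁.1)
    rw [norm_mul, Complex.norm_ofNat] at h2
    rw [h1]
    linarith
  have hζ₀ : p₀ - c = 2 * e := by rw [hc, he]; ring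
  have hη₀ : q₀ - conj c = conj e := by
    rw [hc, he]
    simp only [map_sub, map_mul, Complex.conj_conj, map_ofNat]
    ring
  -- the constants
  obtain ⟨s₀, hs₀⟩ : ∃ s₀ : ℝ, v x₀ = s₀ :=
    ⟨(v x₀).toReal, (EReal.coe_toReal (htop x₀ hx₀W) hne).symm⟩
  have hs₀M : s₀ ≤ M := by
    have h1 := hM x₀ (by rw [mem_closedBall, dist_eq_norm]; linarith)
    rw [hs₀] at h1
    exact EReal.coe_le_coe_iff.1 h1
  have hl2 : 0 < Real.log 2 := Real.log_pos (by norm_num)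
  obtain ⟨κ, hκ⟩ : ∃ κ, κ = (M + 3 - s₀) / Real.log 2 := ⟨_, rfl⟩
  have hκ0 : 0 < κ := by rw [hκ]; exact div_pos (by linarith) hl2
  have hκl : κ * Real.log 2 = M + 3 - s₀ := by rw [hκ]; field_simp
  obtain ⟨δ, hδ⟩ : ∃ δ, δ = min (d ^ 2) (τ / 2) := ⟨_, rfl⟩
  have hδ0 : 0 < δ := by rw [hδ]; positivity
  have hδ1 : δ ≤ d ^ 2 := by rw [hδ]; exact min_le_left _ _
  have hδ2 : δ ≤ τ / 2 := by rw [hδ]; exact min_le_right _ _
  obtain ⟨η, hη⟩ : ∃ η : E3 → ℂ, η = fun x => (x.1 - c) * (x.2.1 - conj c) - ((2 * d ^ 2 : ℝ) : ℂ) :=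
    ⟨_, rfl⟩
  have hηc : Continuous η := by rw [hη]; fun_prop
  have hηx₀ : η x₀ = 0 := by
    rw [hη]
    show (x₀.1 - c) * (x₀.2.1 - conj c) - ((2 * d ^ 2 : ℝ) : ℂ) = 0
    rw [← hp₀, ← hq₀, hζ₀, hη₀, hd, mul_assoc, Complex.mul_conj']
    push_cast
    ring
  obtain ⟨K, hK⟩ : ∃ K : Set E3, K = {x | (2 * d ^ 2 ≤ ‖x.1 - c‖ ^ 2 ∧ ‖x.1 - c‖ ≤ 4 * d) ∧
      ‖η x‖ ≤ δ ∧ ‖x.2.2 - w₀‖ ≤ δ} := ⟨_, rfl⟩
  have hKm : ∀ x, x ∈ K ↔ (2 * d ^ 2 ≤ ‖x.1 - c‖ ^ 2 ∧ ‖x.1 - c‖ ≤ 4 * d) ∧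
      ‖η x‖ ≤ δ ∧ ‖x.2.2 - w₀‖ ≤ δ := fun x => by rw [hK]; rfl
  have hKball : K ⊆ closedBall x₁ τ := by
    intro x hx
    rw [hKm] at hx
    obtain ⟨⟨k1, k2⟩, k3, k4⟩ := hx
    have b1 : ‖x.1 - x₁.1‖ ≤ τ := by
      have h1 : x.1 - x₁.1 = (x.1 - c) + (c - x₁.1) := by ring
      rw [h1]
      have := norm_add_le (x.1 - c) (c - x₁.1)
      linarith
    have b2 : ‖x.2.1 - x₁.2.1‖ ≤ τ := by
      have h1 : x.2.1 - x₁.2.1 = (x.2.1 - conj c) + conj (c - x₁.1) := by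
        rw [hpl, map_sub]
        ring
      have h2 : ‖x.1 - c‖ * ‖x.2.1 - conj c‖ ≤ 3 * d ^ 2 := by
        rw [← norm_mul]
        have h3 : (x.1 - c) * (x.2.1 - conj c) = η x + ((2 * d ^ 2 : ℝ) : ℂ) := by
          rw [hη]
          show _ = (x.1 - c) * (x.2.1 - conj c) - ((2 * d ^ 2 : ℝ) : ℂ) + ((2 * d ^ 2 : ℝ) : ℂ)
          ring
        rw [h3]
        have h4 := norm_add_le (η x) ((2 * d ^ 2 : ℝ) : ℂ)
        rw [Complex.norm_real, Real.norm_of_nonneg (by positivity)] at h4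
        linarith
      have h5 : d ≤ ‖x.1 - c‖ := by
        by_contra h6
        push Not at h6
        have h7 : ‖x.1 - c‖ ^ 2 < d ^ 2 := by
          have := norm_nonneg (x.1 - c)
          nlinarith
        nlinarith
      have h6 : ‖x.2.1 - conj c‖ ≤ 3 * d := by
        have h7 : d * ‖x.2.1 - conj c‖ ≤ d * (3 * d) := by
          calc d * ‖x.2.1 - conj c‖ ≤ ‖x.1 - c‖ * ‖x.2.1 - conj c‖ :=
                mul_le_mul_of_nonneg_right h5 (norm_nonneg _)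
            _ ≤ 3 * d ^ 2 := h2
            _ = d * (3 * d) := by ring
        exact le_of_mul_le_mul_left h7 hd0
      rw [h1]
      have h7 := norm_add_le (x.2.1 - conj c) (conj (c - x₁.1))
      rw [Complex.norm_conj] at h7
      linarith
    have b3 : ‖x.2.2 - x₁.2.2‖ ≤ τ := by
      have h1 : x.2.2 - x₁.2.2 = (x.2.2 - w₀) + (w₀ - x₁.2.2) := by ring
      rw [h1]
      have := norm_add_le (x.2.2 - w₀) (w₀ - x₁.2.2)
      linarith
    rw [mem_closedBall, dist_eq_norm, Prod.norm_def, Prod.norm_def]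
    exact max_le b1 (max_le b2 b3)
  have hKW : K ⊆ W := hKball.trans hτW
  have hKcl : IsClosed K := by
    have i1 : IsClosed {x : E3 | 2 * d ^ 2 ≤ ‖x.1 - c‖ ^ 2} :=
      isClosed_le (by fun_prop) (by fun_prop)
    have i2 : IsClosed {x : E3 | ‖x.1 - c‖ ≤ 4 * d} := isClosed_le (by fun_prop) (by fun_prop)
    have i3 : IsClosed {x : E3 | ‖η x‖ ≤ δ} := isClosed_le (by fun_prop) (by fun_prop)
    have i4 : IsClosed {x : E3 | ‖x.2.2 - w₀‖ ≤ δ} := isClosed_le (by fun_prop) (by fun_prop)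
    rw [hK]
    exact (i1.inter i2).inter (i3.inter i4)
  have hKc : IsCompact K := (isCompact_closedBall x₁ τ).of_isClosed_subset hKcl hKball
  have hζn : ‖x₀.1 - c‖ = 2 * d := by
    rw [← hp₀, hζ₀, norm_mul, Complex.norm_ofNat, hd]
  have hx₀K : x₀ ∈ K := by
    rw [hKm, hηx₀, hζn, ← hw₀, sub_self, norm_zero]
    refine ⟨⟨?_, ?_⟩, hδ0.le, hδ0.le⟩
    · nlinarith
    · linarith
  -- the part of the boundary near the plane
  obtain ⟨g, hg⟩ : ∃ g : E3 → ℝ, g = fun x => ‖η x‖ ^ 2 + ‖x.2.2 - w₀‖ ^ 2 := ⟨_, rfl⟩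
  have hgc : Continuous g := by rw [hg]; fun_prop
  have hg0 : ∀ x, 0 ≤ g x := fun x => by rw [hg]; positivity
  obtain ⟨m₀, hm₀⟩ : ∃ m₀, m₀ = M + 1 - κ * (3 / 2 * Real.log 2) := ⟨_, rfl⟩
  have hN : IsCompact (K ∩ v ⁻¹' Ici (m₀ : EReal) ∩ {x | ‖x.1 - c‖ ^ 2 = 2 * d ^ 2}) :=
    ((husc.mono hKW).isCompact_inter_preimage_Ici hKc _).inter_right
      (isClosed_eq (by fun_prop) (by fun_prop))
  obtain ⟨ε, hε0, hε⟩ : ∃ ε : ℝ, 0 < ε ∧ ∀ x ∈ K, (m₀ : EReal) ≤ v x →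
      ‖x.1 - c‖ ^ 2 = 2 * d ^ 2 → ε ≤ g x := by
    by_cases hem : (K ∩ v ⁻¹' Ici (m₀ : EReal) ∩ {x | ‖x.1 - c‖ ^ 2 = 2 * d ^ 2}).Nonempty
    · obtain ⟨y, hy, hmin⟩ := hN.exists_isMinOn hem hgc.continuousOn
      refine ⟨g y, ?_, fun x hx h1 h2 => hmin ⟨⟨hx, h1⟩, h2⟩⟩
      refine lt_of_le_of_ne (hg0 y) fun h0 => ?_
      have h1 : ‖η y‖ ^ 2 + ‖y.2.2 - w₀‖ ^ 2 = 0 := by
        rw [hg] at h0
        exact h0.symm
      have h2 : η y = 0 := by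
        have : ‖η y‖ ^ 2 = 0 := by
          have := sq_nonneg ‖η y‖
          have := sq_nonneg ‖y.2.2 - w₀‖
          linarith
        exact norm_eq_zero.1 (pow_eq_zero_iff (by norm_num) |>.1 this)
      have h3 : ‖y.1 - c‖ ^ 2 = 2 * d ^ 2 := hy.2
      have h4 : y.1 - c ≠ 0 := by
        intro h5
        rw [h5, norm_zero] at h3
        nlinarith
      have h5 : (y.1 - c) * (y.2.1 - conj c) = (y.1 - c) * conj (y.1 - c) := by
        rw [Complex.mul_conj', ← Complex.ofReal_pow, h3]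
        rw [hη] at h2
        exact sub_eq_zero.1 h2
      have h6 : y.2.1 - conj c = conj (y.1 - c) := mul_left_cancel₀ h4 h5
      have h7 : y.2.1 = conj y.1 := by
        rw [map_sub] at h6
        linear_combination h6
      have h8 := hbot y ⟨hKW hy.1.1, h7⟩
      have h9 : (m₀ : EReal) ≤ v y := hy.1.2
      rw [h8] at h9
      exact EReal.coe_ne_bot _ (le_bot_iff.1 h9)
    · refine ⟨1, one_pos, fun x hx h1 h2 => ?_⟩
      exact absurd ⟨x, ⟨hx, h1⟩, h2⟩ hem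
  obtain ⟨L, hL⟩ : ∃ L, L = κ * (3 / 2 * Real.log 2) / ε + κ * (3 / 2 * Real.log 2) / δ ^ 2 :=
    ⟨_, rfl⟩
  have hL0 : 0 ≤ L := by rw [hL]; positivity
  have hL1 : κ * (3 / 2 * Real.log 2) ≤ L * ε := by
    rw [hL, add_mul, div_mul_cancel₀ _ hε0.ne']
    have : 0 ≤ κ * (3 / 2 * Real.log 2) / δ ^ 2 * ε := by positivity
    linarith
  have hL2 : κ * (3 / 2 * Real.log 2) ≤ L * δ ^ 2 := by
    rw [hL, add_mul, div_mul_cancel₀ _ (by positivity)]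
    have : 0 ≤ κ * (3 / 2 * Real.log 2) / ε * δ ^ 2 := by positivity
    linarith
  -- the test function
  obtain ⟨φ, hφ⟩ : ∃ φ : E3 → ℝ, φ = tst (M + 2 - κ * Real.log (4 * d)) κ (-(1 / (16 * d ^ 2))) L
      (2 * d ^ 2) c w₀ := ⟨_, rfl⟩
  have hφe : ∀ x, φ x = (M + 2 - κ * Real.log (4 * d) + κ * Real.log ‖x.1 - c‖) +
      (-(1 / (16 * d ^ 2)) * ‖x.1 - c‖ ^ 2 + L * g x) := by
    intro x
    rw [hφ, hg, hη]
    rfl
  have hl4 : Real.log (4 * d) = 2 * Real.log 2 + Real.log d := by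
    rw [Real.log_mul (by norm_num) hd0.ne', show (4 : ℝ) = 2 ^ 2 by norm_num, Real.log_pow]
    push_cast
    ring
  have hne0 : ∀ x ∈ K, x.1 ≠ c := by
    intro x hx h
    have h1 := ((hKm x).1 hx).1.1
    rw [h, sub_self, norm_zero] at h1
    nlinarith
  have hφ₀ : φ x₀ < s₀ := by
    rw [hφe, hζn, hl4, Real.log_mul (by norm_num) hd0.ne']
    have h1 : g x₀ = 0 := by
      rw [hg]
      show ‖η x₀‖ ^ 2 + ‖x₀.2.2 - w₀‖ ^ 2 = 0
      rw [hηx₀, ← hw₀, sub_self, norm_zero]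
      norm_num
    rw [h1]
    have h2 : -(1 / (16 * d ^ 2)) * (2 * d) ^ 2 = -(1 / 4) := by
      field_simp
      norm_num
    rw [h2]
    nlinarith
  -- lower bound
  have hlow : ∀ x ∈ K, m₀ + L * g x ≤ φ x := by
    intro x hx
    obtain ⟨⟨k1, k2⟩, -, -⟩ := (hKm x).1 hx
    have hpos : 0 < ‖x.1 - c‖ := norm_pos_iff.2 (sub_ne_zero.2 (hne0 x hx))
    have h1 : 1 / 2 * Real.log 2 + Real.log d ≤ Real.log ‖x.1 - c‖ := by
      have h2 := Real.log_le_log (by positivity) k1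
      rw [Real.log_mul (by norm_num) (by positivity), Real.log_pow, Real.log_pow] at h2
      push_cast at h2
      linarith
    have h3 : 1 / (16 * d ^ 2) * ‖x.1 - c‖ ^ 2 ≤ 1 := by
      rw [div_mul_eq_mul_div, one_mul, div_le_one (by positivity)]
      have := norm_nonneg (x.1 - c)
      nlinarith
    rw [hφe, hl4, hm₀]
    have h4 := mul_le_mul_of_nonneg_left h1 hκ0.le
    nlinarith
  have hvM : ∀ x ∈ K, v x ≤ M := fun x hx => hM x (hKball hx)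
  -- the function `v - φ`
  have hφcd : ∀ x ∈ K, ContDiffAt ℝ 2 φ x := fun x hx => by
    rw [hφ]
    exact tst_cd (hne0 x hx)
  have hφcont : ContinuousOn φ K := fun x hx => (hφcd x hx).continuousAt.continuousWithinAt
  have hFusc : UpperSemicontinuousOn (fun x => v x + ((-(φ x) : ℝ) : EReal)) K := by
    refine (husc.mono hKW).add' ?_ fun x hx => ?_
    · exact (continuous_coe_real_ereal.comp_continuousOn hφcont.neg).upperSemicontinuousOn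
    · exact EReal.continuousAt_add (Or.inr (EReal.coe_ne_bot _)) (Or.inr (EReal.coe_ne_top _))
  obtain ⟨y, hyK, hmax⟩ := UpperSemicontinuousOn.exists_isMaxOn ⟨x₀, hx₀K⟩ hKc hFusc
  have hmax' : ∀ x ∈ K, v x + ((-(φ x) : ℝ) : EReal) ≤ v y + ((-(φ y) : ℝ) : EReal) :=
    fun x hx => hmax hx
  have hy1 : (((s₀ - φ x₀ : ℝ)) : EReal) ≤ v y + ((-(φ y) : ℝ) : EReal) := by
    have h1 := hmax' x₀ hx₀K
    rw [hs₀, ← EReal.coe_add] at h1
    rwa [sub_eq_add_neg]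
  have hybot : v y ≠ ⊥ := by
    intro h
    rw [h, EReal.bot_add] at hy1
    exact EReal.coe_ne_bot _ (le_bot_iff.1 hy1)
  obtain ⟨s, hs⟩ : ∃ s : ℝ, v y = s :=
    ⟨(v y).toReal, (EReal.coe_toReal (htop y (hKW hyK)) hybot).symm⟩
  have hsφ : φ y < s := by
    rw [hs, ← EReal.coe_add] at hy1
    have h1 := EReal.coe_le_coe_iff.1 hy1
    linarith
  have hsM : s ≤ M := by
    have h1 := hvM y hyK
    rw [hs] at h1
    exact EReal.coe_le_coe_iff.1 h1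
  have hylow := hlow y hyK
  obtain ⟨⟨k1, k2⟩, k3, k4⟩ := (hKm y).1 hyK
  -- strict inequalities
  have j1 : 2 * d ^ 2 < ‖y.1 - c‖ ^ 2 := by
    refine lt_of_le_of_ne k1 fun h => ?_
    by_cases h1 : (m₀ : EReal) ≤ v y
    · have h2 := hε y hyK h1 h.symm
      have h3 := mul_le_mul_of_nonneg_left h2 hL0
      linarith
    · rw [not_le, hs] at h1
      have h2 := EReal.coe_lt_coe_iff.1 h1
      have h3 := mul_nonneg hL0 (hg0 y)
      linarith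
  have j2 : ‖y.1 - c‖ < 4 * d := by
    refine lt_of_le_of_ne k2 fun h => ?_
    have h1 := hφe y
    rw [h] at h1
    have h2 : -(1 / (16 * d ^ 2)) * (4 * d) ^ 2 = -1 := by
      field_simp
      norm_num
    rw [h2] at h1
    have h3 := mul_nonneg hL0 (hg0 y)
    linarith
  have j3 : ‖η y‖ < δ := by
    refine lt_of_le_of_ne k3 fun h => ?_
    have h1 : δ ^ 2 ≤ g y := by
      rw [hg]
      show δ ^ 2 ≤ ‖η y‖ ^ 2 + ‖y.2.2 - w₀‖ ^ 2
      rw [h]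
      have := sq_nonneg ‖y.2.2 - w₀‖
      linarith
    have h2 := mul_le_mul_of_nonneg_left h1 hL0
    linarith
  have j4 : ‖y.2.2 - w₀‖ < δ := by
    refine lt_of_le_of_ne k4 fun h => ?_
    have h1 : δ ^ 2 ≤ g y := by
      rw [hg]
      show δ ^ 2 ≤ ‖η y‖ ^ 2 + ‖y.2.2 - w₀‖ ^ 2
      rw [h]
      have := sq_nonneg ‖η y‖
      linarith
    have h2 := mul_le_mul_of_nonneg_left h1 hL0
    linarith
  -- neighbourhood
  have hnhd : ∀ᶠ x in 𝓝 y, x ∈ K := by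
    have o1 : ∀ᶠ x : E3 in 𝓝 y, 2 * d ^ 2 < ‖x.1 - c‖ ^ 2 :=
      (isOpen_lt (by fun_prop) (by fun_prop)).mem_nhds j1
    have o2 : ∀ᶠ x : E3 in 𝓝 y, ‖x.1 - c‖ < 4 * d :=
      (isOpen_lt (by fun_prop) (by fun_prop)).mem_nhds j2
    have o3 : ∀ᶠ x : E3 in 𝓝 y, ‖η x‖ < δ :=
      (isOpen_lt (by fun_prop) (by fun_prop)).mem_nhds j3
    have o4 : ∀ᶠ x : E3 in 𝓝 y, ‖x.2.2 - w₀‖ < δ :=
      (isOpen_lt (by fun_prop) (by fun_prop)).mem_nhds j4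
    filter_upwards [o1, o2, o3, o4] with x a1 a2 a3 a4
    exact (hKm x).2 ⟨⟨a1.le, a2.le⟩, a3.le, a4.le⟩
  have htest : ∀ᶠ x in 𝓝 y, v x ≤ ((φ x - φ y + (v y).toReal : ℝ) : EReal) := by
    filter_upwards [hnhd] with x hx
    have h1 := hmax' x hx
    rw [hs, EReal.toReal_coe]
    by_cases h2 : v x = ⊥
    · rw [h2]
      exact bot_le
    · obtain ⟨r, hr⟩ : ∃ r : ℝ, v x = r :=
        ⟨(v x).toReal, (EReal.coe_toReal (htop x (hKW hx)) h2).symm⟩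
      rw [hs, hr, ← EReal.coe_add, ← EReal.coe_add, EReal.coe_le_coe_iff] at h1
      rw [hr, EReal.coe_le_coe_iff]
      linarith
  obtain ⟨ξ, hξ⟩ := tst_levi (C := M + 2 - κ * Real.log (4 * d)) (κ := κ)
    (a := -(1 / (16 * d ^ 2))) (L := L) (D := 2 * d ^ 2) (c := c) (w₀ := w₀) (x := y) (hne0 y hyK)
  have hfin := hvisc y (hKW hyK) hybot φ (hφcd y hyK) htest ξ
  rw [hφ, hξ] at hfin
  have : 0 < 1 / (16 * d ^ 2) := by positivity
  linarith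

/-- **S_bar** -/
theorem s_bar : S_bar := by
  intro W v x₁ hW hx₁ hpl husc htop hbot hvisc
  obtain ⟨τ, hτ, hτW⟩ := Metric.nhds_basis_closedBall.mem_iff.1 (hW.mem_nhds hx₁)
  obtain ⟨M, hM⟩ : ∃ M : ℝ, ∀ x ∈ closedBall x₁ τ, v x ≤ M := by
    obtain ⟨y, hy, hmax⟩ := UpperSemicontinuousOn.exists_isMaxOn (s := closedBall x₁ τ)
      ⟨x₁, mem_closedBall_self hτ.le⟩ (isCompact_closedBall _ _) (husc.mono hτW)
    exact ⟨(v y).toReal, fun x hx => (hmax hx).trans (EReal.le_coe_toReal (htop y (hτW hy)))⟩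
  filter_upwards [ball_mem_nhds x₁ (show 0 < τ / 50 by positivity)] with x₀ hx₀
  by_contra hne
  rw [mem_ball, dist_eq_norm] at hx₀
  exact bar_core hτ hτW hpl husc htop hbot hvisc hM hx₀ hne

end Pool.Agent.H670.K
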